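import Pool.Agent.Y862.CH.Stm
import Pool.Agent.Helper134.ChainPath

/-!
Job CH-FIVE: five links need many pieces, also for motions which are piecewise polynomial of
bounded degree in angle space.
-/

set_option autoImplicit false

namespace Pool.Agent.Y25.CH

open Real CH134 Pool.Agent.Y862.CH

/-- the first time at which a continuous function takes the value `v` -/
theorem first_time {f : ℝ → ℝ} {s0 s1 v : ℝ} (hf : Continuous f) (h0 : f s0 ≤ v)
    (h : ∃ t ∈ Set.Icc s0 s1, v < f t) :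
    ∃ t2 ∈ Set.Icc s0 s1, f t2 = v ∧ ∀ t ∈ Set.Icc s0 t2, f t ≤ v := by
  obtain ⟨t, ht, hv⟩ := h
  obtain ⟨S, hS⟩ : ∃ S : Set ℝ, S = Set.Icc s0 s1 ∩ f ⁻¹' {v} := ⟨_, rfl⟩
  have hSc : IsCompact S := by
    rw [hS]
    exact isCompact_Icc.inter_right (isClosed_singleton.preimage hf)
  have hSne : S.Nonempty := by
    obtain ⟨r, hr, hr'⟩ := intermediate_value_Icc ht.1 hf.continuousOn (show v ∈ Set.Icc (f s0) (f t) from
      ⟨h0, hv.le⟩)
    refine ⟨r, ?_⟩
    rw [hS]
    exact ⟨⟨hr.1, hr.2.trans ht.2⟩, hr'⟩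
  have hmem := hSc.sInf_mem hSne
  have hbdd := hSc.bddBelow
  have hSsub : ∀ x ∈ S, x ∈ Set.Icc s0 s1 ∧ f x = v := by
    intro x hx
    rw [hS] at hx
    exact hx
  have hmem' := hSsub _ hmem
  refine ⟨sInf S, hmem'.1, hmem'.2, fun r hr => ?_⟩
  by_contra hcon
  push Not at hcon
  obtain ⟨r', hr1, hr2⟩ := intermediate_value_Icc hr.1 hf.continuousOn (show v ∈ Set.Icc (f s0) (f r) from
      ⟨h0, hcon.le⟩)
  have hr'S : r' ∈ S := by
    rw [hS]
    exact ⟨⟨hr1.1, hr1.2.trans (hr.2.trans hmem'.1.2)⟩, hr2⟩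
  have h1 : sInf S ≤ r' := csInf_le hbdd hr'S
  have h2 : r = r' := le_antisymm (hr.2.trans h1) hr1.2
  rw [← h2] at hr2
  linarith

theorem comp_deg {d : ℕ} {f : Polynomial ℝ} (hf : f.natDegree ≤ d) (u v : ℝ) :
    (f.comp (Polynomial.C u * Polynomial.X + Polynomial.C v)).natDegree ≤ d := by
  have h1 := Polynomial.natDegree_comp_le (p := f) (q := Polynomial.C u * Polynomial.X + Polynomial.C v)
  have h2 : (Polynomial.C u * Polynomial.X + Polynomial.C v).natDegree ≤ 1 :=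
    Polynomial.natDegree_linear_le
  calc _ ≤ _ := h1
    _ ≤ f.natDegree * 1 := Nat.mul_le_mul_left _ h2
    _ ≤ d := by rw [mul_one]; exact hf

/-- one polynomial move increases `a` by at most the threshold `Δ` -/
theorem poly_move (d : ℕ) (m Δ η : ℝ) (hm : 0 < m) (hm' : m ≤ 1/1000) (hΔ : 0 < Δ)
    (hη : 220 * m ≤ η)
    (hP : ∀ A X Y : Polynomial ℝ,
      A.natDegree ≤ d → X.natDegree ≤ d → Y.natDegree ≤ d →
      (∀ s ∈ Set.Icc (0 : ℝ) 1, |A.eval s| ≤ 1 ∧ |X.eval s| ≤ 21 ∧ |Y.eval s| ≤ 21) →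
      Δ ≤ A.eval 1 - A.eval 0 →
      ∃ s ∈ Set.Icc (0 : ℝ) 1, η < |X.eval s * cos (A.eval s) - sin (A.eval s) + Y.eval s|)
    (p : ℝ → ℕ → ℂ) (s0 s1 : ℝ) (h01 : s0 ≤ s1)
    (hl : ∀ t ∈ Set.Icc s0 s1, HasLengths 5 (lm m) (p t)) (hs : ∀ t ∈ Set.Icc s0 s1, Simple 5 (p t))
    (hang : ∀ i : ℕ, i + 1 < 5 → ∃ f : Polynomial ℝ, f.natDegree ≤ d ∧
      ∀ t ∈ Set.Icc s0 s1, JointAngle (p t) i (f.eval t))
    (a c b e : ℝ) (h0 : St (p s0) a c b e) (hF : 0 < F m a c b e) (M : ℝ) (hM : 1/2 ≤ M) (haM : a ≤ M)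
    (hM' : M + Δ ≤ 3/4) :
    ∃ a' c' b' e' : ℝ, St (p s1) a' c' b' e' ∧ 0 < F m a' c' b' e' ∧ a' ≤ M + Δ := by
  obtain ⟨f0, d0, g0⟩ := hang 0 (by norm_num)
  obtain ⟨f1, d1, g1⟩ := hang 1 (by norm_num)
  obtain ⟨f2, d2, g2⟩ := hang 2 (by norm_num)
  obtain ⟨f3, d3, g3⟩ := hang 3 (by norm_num)
  -- polynomial directions
  obtain ⟨A, hA⟩ : ∃ A : Polynomial ℝ, A = f0 := ⟨_, rfl⟩
  obtain ⟨C, hC⟩ : ∃ C : Polynomial ℝ, C = f0 + f1 - Polynomial.C (2 * π) := ⟨_, rfl⟩
  obtain ⟨B, hB⟩ : ∃ B : Polynomial ℝ, B = f0 + f1 + f2 - Polynomial.C (4 * π) := ⟨_, rfl⟩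
  obtain ⟨E, hE⟩ : ∃ E : Polynomial ℝ, E = f0 + f1 + f2 + f3 - Polynomial.C (6 * π) := ⟨_, rfl⟩
  have eA : ∀ t, A.eval t = f0.eval t := by intro t; rw [hA]
  have eC : ∀ t, C.eval t = f0.eval t + f1.eval t - 2 * π := by
    intro t; rw [hC, Polynomial.eval_sub, Polynomial.eval_add, Polynomial.eval_C]
  have eB : ∀ t, B.eval t = f0.eval t + f1.eval t + f2.eval t - 4 * π := by
    intro t; rw [hB, Polynomial.eval_sub, Polynomial.eval_add, Polynomial.eval_add, Polynomial.eval_C]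
  have eE : ∀ t, E.eval t = f0.eval t + f1.eval t + f2.eval t + f3.eval t - 6 * π := by
    intro t
    rw [hE, Polynomial.eval_sub, Polynomial.eval_add, Polynomial.eval_add, Polynomial.eval_add,
      Polynomial.eval_C]
  have dA : A.natDegree ≤ d := by rw [hA]; exact d0
  have dC : C.natDegree ≤ d := by
    rw [hC]
    refine (Polynomial.natDegree_sub_le _ _).trans (max_le ?_ ((Polynomial.natDegree_C _).trans_le (Nat.zero_le _)))
    exact (Polynomial.natDegree_add_le _ _).trans (max_le d0 d1)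
  have dB : B.natDegree ≤ d := by
    rw [hB]
    refine (Polynomial.natDegree_sub_le _ _).trans (max_le ?_ ((Polynomial.natDegree_C _).trans_le (Nat.zero_le _)))
    refine (Polynomial.natDegree_add_le _ _).trans (max_le ?_ d2)
    exact (Polynomial.natDegree_add_le _ _).trans (max_le d0 d1)
  have hst : ∀ t ∈ Set.Icc s0 s1, St (p t) (A.eval t) (C.eval t) (B.eval t) (E.eval t) := by
    intro t ht
    refine ⟨by rw [eA]; exact g0 t ht, ?_, ?_, ?_⟩
    · have : 2 * π + C.eval t - A.eval t = f1.eval t := by rw [eA, eC]; ring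
      rw [this]; exact g1 t ht
    · have : 2 * π + B.eval t - C.eval t = f2.eval t := by rw [eB, eC]; ring
      rw [this]; exact g2 t ht
    · have : 2 * π + E.eval t - B.eval t = f3.eval t := by rw [eB, eE]; ring
      rw [this]; exact g3 t ht
  have hcA : Continuous (fun t => A.eval t) := A.continuous
  have hcC : Continuous (fun t => C.eval t) := C.continuous
  have hcB : Continuous (fun t => B.eval t) := B.continuous
  have hcE : Continuous (fun t => E.eval t) := E.continuous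
  have hs0 : s0 ∈ Set.Icc s0 s1 := ⟨le_rfl, h01⟩
  have hs1 : s1 ∈ Set.Icc s0 s1 := ⟨h01, le_rfl⟩
  obtain ⟨ea, ec, eb, ee⟩ := St_unique m hm hm' (p s0) (hl s0 hs0) _ _ _ _ _ _ _ _ (hst s0 hs0) h0
  have hF0 : 0 < F m (A.eval s0) (C.eval s0) (B.eval s0) (E.eval s0) := by
    rw [ea, ec, eb, ee]; exact hF
  have hA0 : A.eval s0 ≤ M := by rw [ea]; exact haM
  by_cases hend : ∃ t ∈ Set.Icc s0 s1, M + Δ < A.eval t
  · exfalso
    obtain ⟨t2, ht2, hAt2, hbelow⟩ := first_time hcA (by linarith : A.eval s0 ≤ M + Δ) hend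
    have hsub : Set.Icc s0 t2 ⊆ Set.Icc s0 s1 := Set.Icc_subset_Icc le_rfl ht2.2
    have hle : ∀ t ∈ Set.Icc s0 t2, A.eval t ≤ 1 := by
      intro t ht
      have := hbelow t ht
      linarith
    have hpers := persist m hm hm' p s0 t2 (fun t ht => hl t (hsub ht)) (fun t ht => hs t (hsub ht))
      (fun t => A.eval t) (fun t => C.eval t) (fun t => B.eval t) (fun t => E.eval t)
      hcA.continuousOn hcC.continuousOn hcB.continuousOn
      hcE.continuousOn (fun t ht => hst t (hsub ht)) hle hF0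
    obtain ⟨L, hL⟩ : ∃ L : Polynomial ℝ,
      L = Polynomial.C (t2 - s0) * Polynomial.X + Polynomial.C s0 := ⟨_, rfl⟩
    have eL : ∀ s, L.eval s = (t2 - s0) * s + s0 := by
      intro s
      rw [hL, Polynomial.eval_add, Polynomial.eval_mul, Polynomial.eval_C, Polynomial.eval_X,
        Polynomial.eval_C]
    have dX : (A - C).natDegree ≤ d := (Polynomial.natDegree_sub_le _ _).trans (max_le dA dC)
    -- the bounds at a time of `[s0, t2]`
    have hbd : ∀ s ∈ Set.Icc (0 : ℝ) 1,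
        0 < A.eval (L.eval s) ∧ A.eval (L.eval s) ≤ 1 ∧
        0 ≤ A.eval (L.eval s) - C.eval (L.eval s) ∧ A.eval (L.eval s) - C.eval (L.eval s) ≤ 4 * m ∧
        |B.eval (L.eval s)| ≤ 20 * m ∧
        |Y4 m (A.eval (L.eval s)) (C.eval (L.eval s)) (B.eval (L.eval s))| ≤ 200 * m ^ 2 := by
      intro s hss
      have htm : L.eval s ∈ Set.Icc s0 t2 := by
        rw [eL]
        have h02 : 0 ≤ t2 - s0 := by linarith [ht2.1]
        constructor
        · have : 0 ≤ (t2 - s0) * s := mul_nonneg h02 hss.1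
          linarith
        · have : (t2 - s0) * s ≤ (t2 - s0) * 1 := mul_le_mul_of_nonneg_left hss.2 h02
          linarith
      obtain ⟨t, ht⟩ : ∃ t, t = L.eval s := ⟨_, rfl⟩
      rw [← ht] at htm ⊢
      obtain ⟨o1, o2, o3, o4⟩ := St_order (hst t (hsub htm))
      obtain ⟨k1, k2, k3, k4, k5, k6⟩ := trap_bounds m (A.eval t) (C.eval t) (B.eval t) (E.eval t)
        hm hm' o1 (hle t htm) o2 o3 o4 (hpers t htm).le
      exact ⟨o1, hle t htm, by linarith, k1, k2, k4⟩
    have hq : 0 < (1 + m) / m := by positivity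
    obtain ⟨s, hss, hbig⟩ := hP (A.comp L) (Polynomial.C ((1 + m) / m) * (A - C).comp L)
      (Polynomial.C ((1 + m) / m) * B.comp L) (by rw [hL]; exact comp_deg dA _ _)
      ((Polynomial.natDegree_C_mul_le _ _).trans (by rw [hL]; exact comp_deg dX _ _))
      ((Polynomial.natDegree_C_mul_le _ _).trans (by rw [hL]; exact comp_deg dB _ _))
      (by
        intro s hss
        obtain ⟨k0, k0', k1, k2, k3, k4⟩ := hbd s hss
        simp only [Polynomial.eval_comp, Polynomial.eval_mul, Polynomial.eval_C,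
          Polynomial.eval_sub]
        refine ⟨by rw [abs_of_pos k0]; exact k0', ?_, ?_⟩
        · rw [abs_of_nonneg (mul_nonneg hq.le k1)]
          have : (1 + m) / m * (A.eval (L.eval s) - C.eval (L.eval s)) ≤ (1 + m) / m * (4 * m) :=
            mul_le_mul_of_nonneg_left k2 hq.le
          have e1 : (1 + m) / m * (4 * m) = 4 * (1 + m) := by field_simp
          rw [e1] at this
          linarith
        · rw [abs_mul, abs_of_pos hq]
          have : (1 + m) / m * |B.eval (L.eval s)| ≤ (1 + m) / m * (20 * m) :=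
            mul_le_mul_of_nonneg_left k3 hq.le
          have e1 : (1 + m) / m * (20 * m) = 20 * (1 + m) := by field_simp
          rw [e1] at this
          linarith)
      (by
        simp only [Polynomial.eval_comp, eL]
        have e1 : (t2 - s0) * 1 + s0 = t2 := by ring
        have e0 : (t2 - s0) * 0 + s0 = s0 := by ring
        rw [e1, e0, hAt2]
        linarith)
    obtain ⟨k0, k0', k1, k2, k3, k4⟩ := hbd s hss
    have hcur := curvA m (A.eval (L.eval s)) (C.eval (L.eval s)) (B.eval (L.eval s)) hm hm' k1 k2 k3 k4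
    simp only [Polynomial.eval_comp, Polynomial.eval_mul, Polynomial.eval_C,
          Polynomial.eval_sub] at hbig
    linarith
  · push Not at hend
    have hle : ∀ t ∈ Set.Icc s0 s1, A.eval t ≤ 1 := by
      intro t ht
      have := hend t ht
      linarith
    have := persist m hm hm' p s0 s1 hl hs (fun t => A.eval t) (fun t => C.eval t)
      (fun t => B.eval t) (fun t => E.eval t) hcA.continuousOn hcC.continuousOn hcB.continuousOn
      hcE.continuousOn hst hle hF0 s1 hs1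
    exact ⟨A.eval s1, C.eval s1, B.eval s1, E.eval s1, hst s1 hs1, this, hend s1 hs1⟩

/-- lower bound for the number of polynomial pieces -/
theorem pieces_gt (d N : ℕ) (m η : ℝ) (hm : 0 < m) (hm' : m ≤ 1/1000) (hη : 220 * m ≤ η)
    (hP : ∀ A X Y : Polynomial ℝ,
      A.natDegree ≤ d → X.natDegree ≤ d → Y.natDegree ≤ d →
      (∀ s ∈ Set.Icc (0 : ℝ) 1, |A.eval s| ≤ 1 ∧ |X.eval s| ≤ 21 ∧ |Y.eval s| ≤ 21) →
      1 / (4 * ((N : ℝ) + 1)) ≤ A.eval 1 - A.eval 0 →
      ∃ s ∈ Set.Icc (0 : ℝ) 1, η < |X.eval s * cos (A.eval s) - sin (A.eval s) + Y.eval s|)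
    (q : ℕ → ℂ) (a c b e : ℝ)
    (hq : St q a c b e) (ha : a = 1/2) (hF : 0 < F m a c b e) (k : ℕ)
    (hk : PolyStraightenedBy 5 d (lm m) q k) : N < k := by
  by_contra hcon
  push Not at hcon
  obtain ⟨T, p, hT, ⟨hcont, hconf⟩, hp0, ⟨τ, hτ0, hτk, hmono, hmoves⟩, hstr⟩ := hk
  have hN1 : (0 : ℝ) < (N : ℝ) + 1 := by positivity
  -- monotonicity of the breakpoints
  have hmon : ∀ j ≤ k, ∀ i ≤ j, τ i ≤ τ j := by
    intro j
    induction j with
    | zero => intro _ i hi; rw [Nat.le_zero.mp hi]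
    | succ j ih =>
      intro hj i hi
      rcases Nat.lt_or_ge i (j + 1) with h | h
      · exact (ih (by omega) i (by omega)).trans (hmono j (by omega))
      · rw [le_antisymm hi h]
  have hin : ∀ j ≤ k, τ j ∈ Set.Icc (0 : ℝ) T := by
    intro j hj
    constructor
    · rw [← hτ0]; exact hmon j hj 0 (Nat.zero_le _)
    · rw [← hτk]; exact hmon k le_rfl j hj
  have hJ : ∀ i : ℕ, i + 2 ≤ 5 → ∀ t : ℝ, JointAngle q i t → JointAngle (p 0) i t := by
    intro i hi t h
    unfold JointAngle at *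
    rw [hp0 i (by omega), hp0 (i + 1) (by omega), hp0 (i + 2) hi]
    exact h
  have hSt0 : St (p 0) a c b e :=
    ⟨hJ 0 (by norm_num) _ hq.1, hJ 1 (by norm_num) _ hq.2.1, hJ 2 (by norm_num) _ hq.2.2.1,
      hJ 3 (by norm_num) _ hq.2.2.2⟩
  have key : ∀ j ≤ k, ∃ a' c' b' e' : ℝ, St (p (τ j)) a' c' b' e' ∧ 0 < F m a' c' b' e' ∧
      a' ≤ 1/2 + (j : ℝ) * (1 / (4 * ((N : ℝ) + 1))) := by
    intro j
    induction j with
    | zero =>
      intro _
      refine ⟨a, c, b, e, ?_, hF, ?_⟩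
      · rw [hτ0]; exact hSt0
      · rw [ha]; simp
    | succ j ih =>
      intro hj
      obtain ⟨a', c', b', e', h1, h2, h3⟩ := ih (by omega)
      have hjN : ((j : ℝ) + 1) ≤ (N : ℝ) := by
        have : j + 1 ≤ N := by omega
        exact_mod_cast this
      have hbd : 1/2 + (j : ℝ) * (1 / (4 * ((N : ℝ) + 1))) + 1 / (4 * ((N : ℝ) + 1)) ≤ 3/4 := by
        have : (j : ℝ) * (1 / (4 * ((N : ℝ) + 1))) + 1 / (4 * ((N : ℝ) + 1)) ≤ 1/4 := by
          have e1 : (j : ℝ) * (1 / (4 * ((N : ℝ) + 1))) + 1 / (4 * ((N : ℝ) + 1))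
              = ((j : ℝ) + 1) / (4 * ((N : ℝ) + 1)) := by ring
          rw [e1, div_le_iff₀ (by positivity)]
          linarith
        linarith
      have hsubI : Set.Icc (τ j) (τ (j + 1)) ⊆ Set.Icc (0 : ℝ) T :=
        Set.Icc_subset_Icc (hin j (by omega)).1 (hin (j + 1) hj).2
      obtain ⟨a2, c2, b2, e2, k1, k2, k3⟩ := poly_move d m (1 / (4 * ((N : ℝ) + 1))) η hm hm'
        (by positivity) hη hP p (τ j) (τ (j + 1)) (hmono j (by omega))
        (fun t ht => (hconf t (hsubI ht)).1)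
        (fun t ht => (hconf t (hsubI ht)).2) (hmoves j (by omega)) a' c' b' e' h1 h2
        (1/2 + (j : ℝ) * (1 / (4 * ((N : ℝ) + 1)))) (by
          have : 0 ≤ (j : ℝ) * (1 / (4 * ((N : ℝ) + 1))) := by positivity
          linarith) h3 hbd
      refine ⟨a2, c2, b2, e2, k1, k2, ?_⟩
      push_cast
      linarith
  obtain ⟨a', c', b', e', h1, h2, h3⟩ := key k le_rfl
  have hpi : a' = π := by
    have hs := hstr 0 (by norm_num)
    rw [← hτk] at hs
    exact ja_unique m hm hm' (p (τ k)) (hconf (τ k) (hin k le_rfl)).1 0 (by norm_num) _ _ h1.1 hs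
  have hkN : (k : ℝ) ≤ (N : ℝ) := by exact_mod_cast hcon
  have hlast : (k : ℝ) * (1 / (4 * ((N : ℝ) + 1))) ≤ 1/4 := by
    have e1 : (k : ℝ) * (1 / (4 * ((N : ℝ) + 1))) = (k : ℝ) / (4 * ((N : ℝ) + 1)) := by ring
    rw [e1, div_le_iff₀ (by positivity)]
    linarith
  have := Real.pi_gt_three
  linarith

theorem five (h : S_POLY) : S_FIVE := by
  intro d N
  have hN1 : (0 : ℝ) < (N : ℝ) + 1 := by positivity
  obtain ⟨η, hη, hP⟩ := h d (1 / (4 * ((N : ℝ) + 1))) (by positivity)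
  obtain ⟨m, hmdef⟩ : ∃ m : ℝ, m = min (1 / 1000) (η / 220) := ⟨_, rfl⟩
  have hm : 0 < m := by rw [hmdef]; exact lt_min (by norm_num) (by positivity)
  have hm' : m ≤ 1 / 1000 := by rw [hmdef]; exact min_le_left _ _
  have hm2 : 220 * m ≤ η := by
    have : m ≤ η / 220 := by rw [hmdef]; exact min_le_right _ _
    linarith
  obtain ⟨q, a, c, b, e, h1, h2, h3, h4, h5⟩ := init_exists m hm hm'
  refine ⟨lm m, q, ?_, h1, h2, fun k hk => pieces_gt d N m η hm hm' hm2 hP q a c b e h3 h4 h5 k hk⟩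
  intro i hi
  interval_cases i <;> simp [lm] <;> linarith

end Pool.Agent.Y25.CH
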